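import Pool.Agent.H5.RigidA
import Pool.Agent.H5.RigidB

set_option autoImplicit false

namespace Pool.Agent.Results.MP_7ac2f5_co.Answer

open Pool.Agent.H5.RigidDefs

theorem result :
    (∃ (n d : ℕ) (G : SimpleGraph (Fin n)) (q : ENNReal) (_ : Fact (1 ≤ q)),
      2 ≤ d ∧ q ≠ 2 ∧ HamiltonUnion d G ∧
      ∀ p : Fin n → PiLp q (fun _ : Fin d => ℝ), ¬ RedundantlyRigid G p) ∧
    (∀ (n d : ℕ) (G : SimpleGraph (Fin n)), 2 ≤ d → HamiltonUnion d G →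
      ∃ (q : ENNReal) (_ : Fact (1 ≤ q)), q ≠ 2 ∧
        ∃ p : Fin n → PiLp q (fun _ : Fin d => ℝ), RedundantlyRigid G p) :=
  ⟨⟨5, 2, ⊤, ⊤, inferInstance, le_rfl, by simp, H5.RigidA.ham, H5.RigidA.no_placement⟩,
    fun _ _ G hd hG => H5.RigidB.exists_q hd G hG⟩

end Pool.Agent.Results.MP_7ac2f5_co.Answer
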